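import Pool.Agent.N396.ZK.Stm

/-!
# Assembly of the matrix theorem (subtask ZK/Asm)
-/

set_option autoImplicit false

namespace Pool.Agent.N607.ZK

open Finset Classical Pool.Agent.N396.ZK

theorem D_pow (s L : ℕ) (hs : 1 ≤ s) (n : ℝ) (hn : 0 < n) :
    ((L : ℝ) ^ (1 / (s : ℝ)) * n ^ (1 - 1 / (s : ℝ))) ^ s = L * n ^ (s - 1) := by
  have hs0 : (s : ℝ) ≠ 0 := by
    have : s ≠ 0 := by omega
    exact_mod_cast this
  rw [mul_pow]
  congr 1
  · rw [one_div]
    exact Real.rpow_inv_natCast_pow (Nat.cast_nonneg L) (by omega)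
  · rw [← Real.rpow_natCast (n ^ (1 - 1 / (s : ℝ))) s, ← Real.rpow_mul hn.le]
    have : (1 - 1 / (s : ℝ)) * s = ((s - 1 : ℕ) : ℝ) := by
      rw [Nat.cast_sub hs]
      field_simp
      push_cast
      ring
    rw [this, Real.rpow_natCast]

theorem mem_rws {α β : Type} {R : α → β → Prop} {P : Finset α} {B : Finset β} {x : α} :
    x ∈ rws R P B ↔ x ∈ P ∧ ∀ y ∈ B, R x y := by
  simp only [rws, mem_filter]

theorem mem_com {α β : Type} {R : α → β → Prop} {Q : Finset β} {A : Finset α} {y : β} :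
    y ∈ com R Q A ↔ y ∈ Q ∧ ∀ x ∈ A, R x y := by
  simp only [com, mem_filter]

theorem asm (hcore : StmCore) (hdeg : StmDeg) (hconc : StmConc) (hsel : StmSel) (s t : ℕ)
    (hs : 4 ≤ s) (ht : s + 2 ≤ t) : StmZ s t := by
  obtain ⟨L, hL⟩ : ∃ L : ℕ, L = t - s + 1 := ⟨_, rfl⟩
  have hL3 : 3 ≤ L := by omega
  have htL : t = L + s - 1 := by omega
  have hLr : (t : ℝ) - s + 1 = L := by
    rw [hL]
    push_cast [Nat.cast_sub (show s ≤ t by omega)]
    ring
  obtain ⟨εc, Kc, hεc0, hεc1, hKc, core⟩ := hcore s L (by omega) hL3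
  obtain ⟨ε, hε⟩ : ∃ ε : ℝ, ε = min (εc / 2) (1 / 4) := ⟨_, rfl⟩
  have hε0 : 0 < ε := by rw [hε]; exact lt_min (by linarith) (by norm_num)
  have hε1 : ε ≤ εc / 2 := by rw [hε]; exact min_le_left _ _
  have hε2 : ε ≤ 1 / 4 := by rw [hε]; exact min_le_right _ _
  obtain ⟨η, K1, hη, hK1, conc⟩ := hconc s L (by omega) (by omega) ε hε0
  obtain ⟨K2, hK2⟩ : ∃ K2 : ℝ, K2 = K1 + 4 * s + 2 * (s + 2) / εc := ⟨_, rfl⟩
  obtain ⟨K3, hK3⟩ : ∃ K3 : ℝ, K3 = K1 + Kc * 2 ^ (s - 3) := ⟨_, rfl⟩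
  have hs0 : (0 : ℝ) ≤ s := Nat.cast_nonneg s
  have hfr : 0 ≤ 2 * ((s : ℝ) + 2) / εc := by positivity
  have hK2a : K1 ≤ K2 := by rw [hK2]; linarith
  have hK2b : 4 * (s : ℝ) ≤ K2 := by rw [hK2]; linarith
  have hK2c : 2 * ((s : ℝ) + 2) / εc ≤ K2 := by rw [hK2]; linarith
  have hK20 : 0 ≤ K2 := by linarith
  have hpw : 0 ≤ Kc * 2 ^ (s - 3) := by positivity
  have hK3a : K1 ≤ K3 := by rw [hK3]; linarith
  have hK3b : Kc * 2 ^ (s - 3) ≤ K3 := by rw [hK3]; linarith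
  have hK30 : 0 ≤ K3 := by linarith
  refine ⟨η, K2 ^ 2 + L * K3 + L + s + 1, hη, by positivity, ?_⟩
  intro α β _ _ R hn hm hcom
  obtain ⟨n, hndef⟩ : ∃ n : ℝ, n = (Fintype.card β : ℝ) := ⟨_, rfl⟩
  obtain ⟨m, hmdef⟩ : ∃ m : ℝ, m = (Fintype.card α : ℝ) := ⟨_, rfl⟩
  rw [← hndef] at hn hm ⊢
  rw [← hmdef] at hm ⊢
  rw [hLr]
  have hLK3 : 0 ≤ (L : ℝ) * K3 := by positivity
  have hL0 : (0 : ℝ) ≤ L := Nat.cast_nonneg L
  have hL3' : (3 : ℝ) ≤ L := by exact_mod_cast hL3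
  have hK2sq : 0 ≤ K2 ^ 2 := sq_nonneg K2
  have hn1 : 1 ≤ n := by linarith
  have hn0 : 0 < n := by linarith
  have hnL : (L : ℝ) ≤ n := by linarith
  have hns : (s : ℝ) ≤ n := by linarith
  obtain ⟨N1, hN1⟩ : ∃ N1 : ℝ, N1 = n ^ (1 - 1 / (s : ℝ)) := ⟨_, rfl⟩
  have hs4 : (4 : ℝ) ≤ s := by exact_mod_cast hs
  have hexp : (1 : ℝ) / 2 ≤ 1 - 1 / (s : ℝ) := by
    have : 1 / (s : ℝ) ≤ 1 / 4 := one_div_le_one_div_of_le (by norm_num) hs4
    linarith
  have hN1K2 : K2 ≤ N1 := by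
    have h1 : K2 ^ 2 ≤ n := by linarith
    have h2 : K2 ≤ n ^ ((1 : ℝ) / 2) := by
      rw [← Real.sqrt_eq_rpow]
      exact Real.le_sqrt_of_sq_le h1
    rw [hN1]
    exact h2.trans (Real.rpow_le_rpow_of_exponent_le hn1 hexp)
  have hN10 : 0 < N1 := by rw [hN1]; positivity
  rw [← hN1] at hm ⊢
  obtain ⟨D, hD⟩ : ∃ D : ℝ, D = (L : ℝ) ^ (1 / (s : ℝ)) * N1 := ⟨_, rfl⟩
  have hLp1 : 1 ≤ (L : ℝ) ^ (1 / (s : ℝ)) := Real.one_le_rpow (by linarith) (by positivity)
  have hLp2 : (L : ℝ) ^ (1 / (s : ℝ)) ≤ L := by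
    have h1 : 1 / (s : ℝ) ≤ 1 := by linarith
    calc (L : ℝ) ^ (1 / (s : ℝ)) ≤ (L : ℝ) ^ (1 : ℝ) :=
          Real.rpow_le_rpow_of_exponent_le (by linarith) h1
      _ = L := Real.rpow_one _
  have hDN : N1 ≤ D := by rw [hD]; exact le_mul_of_one_le_left hN10.le hLp1
  have hDL : D ≤ L * N1 := by rw [hD]; exact mul_le_mul_of_nonneg_right hLp2 hN10.le
  have hDK2 : K2 ≤ D := hN1K2.trans hDN
  have hD0 : 0 < D := lt_of_lt_of_le hN10 hDN
  have hDs : D ^ s = L * n ^ (s - 1) := by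
    rw [hD, hN1]
    exact D_pow s L (by omega) n hn0
  have hmK3 : K3 * D ≤ m := by
    calc K3 * D ≤ K3 * (L * N1) := mul_le_mul_of_nonneg_left hDL hK30
      _ = (L * K3) * N1 := by ring
      _ ≤ (K2 ^ 2 + L * K3 + L + s + 1) * N1 := by
          refine mul_le_mul_of_nonneg_right ?_ hN10.le
          linarith
      _ ≤ m := hm
  by_contra hcon
  rw [not_le] at hcon
  have hsum : (1 - η) * (m * D) ≤ ∑ x, ((row R univ x).card : ℝ) := by
    refine le_trans (le_of_eq ?_) hcon.le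
    rw [hD]; ring
  have hcom' : ∀ A : Finset α, A.card = s → (com R univ A).card ≤ L + s - 2 := by
    intro A hA
    have := hcom A hA
    omega
  have h1 := hdeg α β R s L D (by omega) hD0.le (by rw [← hndef]; exact hDs) hcom'
  rw [← hndef] at h1
  have h2 := conc α (fun x => (row R univ x).card) n D hn0 hDs (by linarith)
    (by rw [← hmdef]; exact (mul_le_mul_of_nonneg_right hK3a hD0.le).trans hmK3) h1 (by rw [← hmdef]; exact hsum)
  obtain ⟨W, hW⟩ : ∃ W : Finset α, W = univ.filter (fun x => (1 - ε) * D ≤ ((row R univ x).card : ℝ)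
    ∧ ((row R univ x).card : ℝ) ≤ (1 + ε) * D) := ⟨_, rfl⟩
  have h2' : m / 2 ≤ (W.card : ℝ) := by
    rw [hW, hmdef]
    exact h2
  have hWm : ∀ x ∈ W, (1 - ε) * D ≤ ((row R univ x).card : ℝ) ∧
      ((row R univ x).card : ℝ) ≤ (1 + ε) * D := by
    intro x hx
    rw [hW, mem_filter] at hx
    exact hx.2
  have hs4' : ((s - 4 : ℕ) : ℝ) = (s : ℝ) - 4 := by
    rw [Nat.cast_sub hs]; norm_num
  obtain ⟨B, hB, hBc⟩ := hsel α β R W (s - 4) (D / 2) (by linarith)
    (by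
      have : (0 : ℝ) < (Fintype.card β : ℝ) := by rw [← hndef]; exact hn0
      exact_mod_cast this)
    (by
      have : (s : ℝ) ≤ (Fintype.card β : ℝ) := by rw [← hndef]; exact hns
      have : s ≤ Fintype.card β := by exact_mod_cast this
      omega)
    (by
      intro x hx
      have h3 := (hWm x hx).1
      have h4 : ε * D ≤ 1 / 4 * D := mul_le_mul_of_nonneg_right hε2 hD0.le
      rw [hs4']
      linarith)
  rw [← hndef] at hBc
  -- the rows
  have hP : ∀ x ∈ rws R W B, x ∈ W ∧ ∀ y ∈ B, R x y := by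
    intro x hx
    exact mem_rws.1 hx
  refine core α β R (rws R W B) (univ \ B) n D ?_ hnL hD0 hDs ?_ ?_ ?_
  · rw [hndef]
    exact_mod_cast card_le_univ _
  · -- Kc * n ^ 3 ≤ c * D ^ 3
    have e1 : m / 2 * (D / 2 / n) ^ (s - 4) ≤ ((rws R W B).card : ℝ) :=
      (mul_le_mul_of_nonneg_right h2' (by positivity)).trans hBc
    have e2 : m / 2 * (D / 2 / n) ^ (s - 4) * D ^ 3 ≤ ((rws R W B).card : ℝ) * D ^ 3 :=
      mul_le_mul_of_nonneg_right e1 (by positivity)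
    refine le_trans ?_ e2
    have e3 : K3 * D / 2 * (D / 2 / n) ^ (s - 4) * D ^ 3 ≤
        m / 2 * (D / 2 / n) ^ (s - 4) * D ^ 3 := by
      refine mul_le_mul_of_nonneg_right (mul_le_mul_of_nonneg_right (by linarith) (by positivity))
        (by positivity)
    refine le_trans ?_ e3
    have e4 : K3 * D / 2 * (D / 2 / n) ^ (s - 4) * D ^ 3 = K3 / 2 * (D ^ s / (2 * n) ^ (s - 4)) := by
      have e5 : D ^ s = D ^ (s - 4) * D ^ 3 * D := by
        rw [mul_assoc, ← pow_succ, ← pow_add]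
        congr 1
        omega
      rw [div_div, div_pow, e5]
      ring
    rw [e4, hDs]
    have e6 : n ^ (s - 1) = n ^ (s - 4) * n ^ 3 := by
      rw [← pow_add]
      congr 1
      omega
    have e7 : (2 : ℝ) ^ (s - 3) = 2 ^ (s - 4) * 2 := by
      rw [← pow_succ]
      congr 1
      omega
    have e8 : K3 / 2 * (L * n ^ (s - 1) / (2 * n) ^ (s - 4)) = K3 / 2 ^ (s - 3) * L * n ^ 3 := by
      rw [e6, e7, mul_pow]
      field_simp
    rw [e8]
    have e9 : Kc ≤ K3 / 2 ^ (s - 3) := by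
      rw [le_div_iff₀ (by positivity)]
      exact hK3b
    have e10 : 0 ≤ K3 / 2 ^ (s - 3) := by positivity
    have e11 : Kc ≤ K3 / 2 ^ (s - 3) * L :=
      e9.trans (le_mul_of_one_le_right e10 (by linarith))
    exact mul_le_mul_of_nonneg_right e11 (by positivity)
  · intro x hx
    obtain ⟨hxW, hxB⟩ := hP x hx
    have hsub : B ⊆ row R univ x := by
      intro y hy
      unfold row
      exact mem_filter.2 ⟨mem_univ _, hxB y hy⟩
    have heq : row R (univ \ B) x = row R univ x \ B := by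
      unfold row
      ext y
      simp only [mem_filter, mem_sdiff, mem_univ, true_and]
      tauto
    have hcard : ((row R (univ \ B) x).card : ℝ) = ((row R univ x).card : ℝ) - ((s : ℝ) - 4) := by
      rw [heq, card_sdiff_of_subset hsub, Nat.cast_sub (card_le_card hsub), hB, hs4']
    rw [hcard]
    have h3 := hWm x hxW
    have h4 : (s : ℝ) + 2 ≤ εc / 2 * D := by
      have h5 := hK2c.trans hDK2
      rw [div_le_iff₀ hεc0] at h5
      linarith
    have h6 : ε * D ≤ εc / 2 * D := mul_le_mul_of_nonneg_right hε1 hD0.le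
    have h7 : 0 ≤ εc / 2 * D := by positivity
    constructor
    · linarith
    · linarith
  · intro A hA hAs
    have hsub : B ⊆ com R univ A := by
      intro y hy
      exact mem_com.2 ⟨mem_univ _, fun x hx => (hP x (hA hx)).2 y hy⟩
    have heq : com R (univ \ B) A = com R univ A \ B := by
      ext y
      rw [mem_sdiff, mem_com, mem_com, mem_sdiff]
      tauto
    have h3 := hcom' A hAs
    rw [heq, card_sdiff_of_subset hsub, hB]
    omega

end Pool.Agent.N607.ZK
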